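import Pool.Agent.P.MP_10b087_nt.HSharp

set_option autoImplicit false

namespace Pool.Agent.Results.MP_10b087_nt.SharpBound

open Pool.Agent.P.MP_10b087_nt

/-- For every `m ≥ 1`, the least value of `l(n) - ⌊log₂ n⌋` over the positive integers `n` of
binary weight `m` is `⌈log₂ m⌉`. -/
theorem result (m : ℕ) (hm : 1 ≤ m) :
    IsLeast {d : ℤ | ∃ n : ℕ, 1 ≤ n ∧ binaryWeight n = m ∧
      d = (chainLength n : ℤ) - ⌊Real.logb 2 (n : ℝ)⌋} ⌈Real.logb 2 (m : ℝ)⌉ := by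
  have fl : ∀ n : ℕ, ⌊Real.logb 2 (n : ℝ)⌋ = (Nat.log 2 n : ℤ) := fun n => by
    have := Real.floor_logb_natCast (b := 2) (r := (n : ℝ)) (Nat.cast_nonneg n)
    rwa [Int.log_natCast, Nat.cast_ofNat] at this
  have cl : ⌈Real.logb 2 (m : ℝ)⌉ = (Nat.clog 2 m : ℤ) := by
    have := Real.ceil_logb_natCast (b := 2) (r := (m : ℝ)) (Nat.cast_nonneg m)
    rwa [Int.clog_natCast, Nat.cast_ofNat] at this
  have low : ∀ n : ℕ, 1 ≤ n → Nat.log 2 n + Nat.clog 2 (nu n) ≤ chainLength n := fun n hn =>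
    (exists_chain hn).elim fun _ h => lower hn h
  rw [cl]
  refine ⟨?_, ?_⟩
  · obtain ⟨x, a, h4, hx, hc⟩ := attained m hm
    have h1 := low x (by omega)
    have h2 : chainLength x ≤ Nat.log 2 x + Nat.clog 2 m := Nat.sInf_le ⟨a, hc⟩
    refine ⟨x, by omega, by rw [binaryWeight_eq, hx], ?_⟩
    rw [hx] at h1
    rw [fl]; omega
  · rintro d ⟨n, hn, hw, rfl⟩
    have h1 := low n hn
    rw [← binaryWeight_eq, hw] at h1
    rw [fl]; omega

end Pool.Agent.Results.MP_10b087_nt.SharpBound
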